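import Mathlib

set_option autoImplicit false

namespace Pool.Agent.Results.MP_5675d3_gt.Fort

open Set Filter Topology TopologicalSpace Ordinal

/-- Noetherian families of sets. -/
def Noetherian {X : Type} (A : Set (Set X)) : Prop :=
  A.Nonempty ∧ ∅ ∉ A ∧ ¬ ∃ c : ℕ → Set X, (∀ n, c n ∈ A) ∧ ∀ n, c n ⊂ c (n + 1)

/-- The layers of a family, by transfinite recursion. -/
noncomputable def layer {X : Type} (A : Set (Set X)) : Ordinal.{0} → Set (Set X) :=
  Ordinal.lt_wf.fix fun i prev => {U | Maximal (fun V => V ∈ A ∧ ∀ j (h : j < i), V ∉ prev j h) U}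

/-- The rank of a family. -/
noncomputable def rank {X : Type} (A : Set (Set X)) : Ordinal.{0} :=
  sInf {a | A = ⋃ i < a, layer A i}

/-- Noetherian bases. -/
def NBase (X : Type) [TopologicalSpace X] (B : Set (Set X)) : Prop :=
  IsTopologicalBasis B ∧ Noetherian B

lemma mem_layer {X : Type} {A : Set (Set X)} {i : Ordinal.{0}} {U : Set X} :
    U ∈ layer A i ↔ Maximal (fun V => V ∈ A ∧ ∀ j < i, V ∉ layer A j) U := by
  rw [layer, WellFounded.fix_eq]; rfl

lemma upper {X : Type} {A : Set (Set X)} (r : Set X → Ordinal.{0})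
    (hr : ∀ U ∈ A, ∀ V ∈ A, U ⊂ V → r V < r U) (U : Set X) (hU : U ∈ A) :
    ∃ j ≤ r U, U ∈ layer A j := by
  induction hi : r U using Ordinal.induction generalizing U with
  | h i ih =>
    by_contra hh
    push Not at hh
    apply hh i le_rfl
    rw [mem_layer]
    refine ⟨⟨hU, fun j hj => hh j hj.le⟩, fun V hV hUV => ?_⟩
    by_contra h2
    have h3 := hi ▸ hr U hU V hV.1 ⟨hUV, h2⟩
    obtain ⟨j, hj, h4⟩ := ih _ h3 V hV.1 rfl
    exact hV.2 j (hj.trans_lt h3) h4

lemma lower {X : Type} {A : Set (Set X)} {U V : Set X} {i : Ordinal.{0}} (hU : U ∈ layer A i)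
    (hV : V ∈ A) (h : U ⊂ V) : ∃ j < i, V ∈ layer A j := by
  by_contra hh
  push Not at hh
  exact h.2 ((mem_layer.1 hU).2 ⟨hV, hh⟩ h.1)

lemma chain {X : Type} {A : Set (Set X)} {c : ℕ → Set X} (h1 : ∀ n, c n ∈ A)
    (h2 : ∀ n, c (n + 1) ⊂ c n) (n : ℕ) : ∀ i, c n ∈ layer A i → (n : Ordinal) ≤ i := by
  induction n with
  | zero => simp
  | succ n ih =>
    intro i hi
    obtain ⟨j, hj, h⟩ := lower hi (h1 n) (h2 n)
    rw [Nat.cast_succ]
    exact Order.add_one_le_of_lt ((ih j h).trans_lt hj)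

def D : Type := ℝ

instance : TopologicalSpace D := ⊥
instance : DiscreteTopology D := ⟨rfl⟩
instance : Uncountable D := inferInstanceAs (Uncountable ℝ)

def BB : Set (Set (OnePoint D)) :=
  {U | (∃ x : D, U = {(x : OnePoint D)}) ∨ (OnePoint.infty ∈ U ∧ Uᶜ.Finite)}

lemma fin_of {U : Set (OnePoint D)} (hU : IsOpen U) (h : OnePoint.infty ∈ U) : Uᶜ.Finite := by
  have := ((OnePoint.isOpen_iff_of_mem h).1 hU).2.finite_of_discrete
  refine (this.image (↑)).subset fun x hx => ?_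
  induction x using OnePoint.rec with
  | infty => exact absurd h hx
  | coe x => exact ⟨x, hx, rfl⟩

lemma basis : IsTopologicalBasis BB := by
  apply isTopologicalBasis_of_isOpen_of_nhds
  · rintro U (⟨x, rfl⟩ | ⟨_, h⟩)
    · rw [← image_singleton]
      exact OnePoint.isOpen_image_coe.2 (isOpen_discrete _)
    · exact isClosed_compl_iff.1 h.isClosed
  · intro x U hx hU
    induction x using OnePoint.rec with
    | infty => exact ⟨U, Or.inr ⟨hx, fin_of hU hx⟩, hx, Subset.rfl⟩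
    | coe x => exact ⟨_, Or.inl ⟨x, rfl⟩, rfl, singleton_subset_iff.2 hx⟩

open Classical in
noncomputable def rk (U : Set (OnePoint D)) : Ordinal.{0} :=
  if OnePoint.infty ∈ U then (Uᶜ.ncard : Ordinal) else ω

lemma rk_le (U : Set (OnePoint D)) : rk U ≤ ω := by
  unfold rk
  split_ifs
  · exact (natCast_lt_omega0 _).le
  · exact le_rfl

lemma rk_lt : ∀ U ∈ BB, ∀ V ∈ BB, U ⊂ V → rk V < rk U := by
  intro U hU V hV h
  have hv : OnePoint.infty ∈ V ∧ Vᶜ.Finite := by
    rcases hV with ⟨y, rfl⟩ | hV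
    · rw [ssubset_singleton_iff] at h
      rcases hU with ⟨x, rfl⟩ | hU
      · simp at h
      · rw [h] at hU; exact absurd hU.1 (notMem_empty _)
    · exact hV
  unfold rk
  rw [if_pos hv.1]
  rcases hU with ⟨x, rfl⟩ | hU
  · rw [if_neg (by simp)]; exact natCast_lt_omega0 _
  · rw [if_pos hU.1]
    exact_mod_cast ncard_lt_ncard (compl_lt_compl_iff_lt.2 h) hU.2

lemma rank_eq {B : Set (Set (OnePoint D))} (hB : B ⊆ BB) (hb : IsTopologicalBasis B) :
    rank B = ω + 1 := by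
  have top : B = ⋃ i < ω + 1, layer B i := by
    apply Subset.antisymm
    · intro U hU
      obtain ⟨j, hj, h⟩ := upper rk (fun U hU V hV => rk_lt U (hB hU) V (hB hV)) U hU
      exact mem_biUnion (Order.lt_add_one_iff.2 (hj.trans (rk_le U))) h
    · intro U hU
      obtain ⟨i, -, h⟩ := mem_iUnion₂.1 hU
      exact (mem_layer.1 h).1.1
  refine le_antisymm (csInf_le' top) (le_csInf ⟨_, top⟩ fun a ha => ?_)
  have step : ∀ U : {U // U ∈ B ∧ OnePoint.infty ∈ U}, ∃ V : {U // U ∈ B ∧ OnePoint.infty ∈ U},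
      V.1 ⊂ U.1 := by
    rintro ⟨U, hU, h⟩
    have hf := fin_of (hb.isOpen hU) h
    obtain ⟨x, hx⟩ := (hf.insert OnePoint.infty).infinite_compl.nonempty
    simp only [mem_compl_iff, mem_insert_iff, not_or, not_not] at hx
    obtain ⟨V, hV, h1, h2⟩ := hb.exists_subset_of_mem_open (u := U ∩ {x}ᶜ) ⟨h, Ne.symm hx.1⟩
      ((hb.isOpen hU).inter isOpen_compl_singleton)
    exact ⟨⟨V, hV, h1⟩, h2.trans inter_subset_left, fun h3 => (h2 (h3 hx.2)).2 rfl⟩
  choose s hs using step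
  obtain ⟨U0, hU0, h0, -⟩ := hb.exists_subset_of_mem_open (mem_univ OnePoint.infty) isOpen_univ
  let c : ℕ → {U // U ∈ B ∧ OnePoint.infty ∈ U} := fun n => s^[n] ⟨U0, hU0, h0⟩
  have hc : ∀ n, (c (n + 1)).1 ⊂ (c n).1 := fun n => by
    simp only [c, Function.iterate_succ_apply']; exact hs _
  have cnt : (⋃ n, ((↑) : D → OnePoint D) ⁻¹' (c n).1ᶜ).Countable := countable_iUnion fun n =>
    ((fin_of (hb.isOpen (c n).2.1) (c n).2.2).preimage OnePoint.coe_injective.injOn).countable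
  have : (⋃ n, ((↑) : D → OnePoint D) ⁻¹' (c n).1ᶜ)ᶜ.Nonempty := by
    rw [nonempty_compl]
    intro e
    exact not_countable (countable_univ_iff.1 (e ▸ cnt))
  obtain ⟨x, hx⟩ := this
  simp only [mem_compl_iff, mem_iUnion, mem_preimage, not_exists, not_not] at hx
  obtain ⟨V, hV, h1, h2⟩ := hb.exists_subset_of_mem_open (mem_singleton (x : OnePoint D))
    (basis.isOpen (Or.inl ⟨x, rfl⟩))
  rw [ha] at hV
  obtain ⟨i, hi, h⟩ := mem_iUnion₂.1 hV
  refine Order.add_one_le_of_lt (lt_of_le_of_lt (omega0_le.2 fun n => ?_) hi)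
  obtain ⟨j, hj, h3⟩ := lower h (c n).2.1 ⟨h2.trans (singleton_subset_iff.2 (hx n)),
    fun h3 => OnePoint.infty_ne_coe x (h2 (h3 (c n).2.2))⟩
  exact (chain (fun n => (c n).2.1) hc n j h3).trans hj.le

theorem result : ∃ (X : Type) (_ : TopologicalSpace X) (B : Set (Set X)), CompactSpace X ∧
    T2Space X ∧ NBase X B ∧ B = (⋃ i < rank B, layer B i) ∧ (rank B).card.ord ≠ rank B ∧
    ∀ B' ⊆ B, NBase X B' → (rank B).card.ord < rank B' := by
  have e : (ω + 1 : Ordinal.{0}).card.ord = ω := by simp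
  refine ⟨OnePoint D, inferInstance, BB, inferInstance, inferInstance, ⟨basis, ⟨univ, Or.inr (by simp)⟩,
    ?_, ?_⟩, ?_, ?_, fun B' h1 h2 => ?_⟩
  · rintro (⟨x, h⟩ | h)
    · exact (singleton_ne_empty _) h.symm
    · exact h.1
  · rintro ⟨c, h1, h2⟩
    exact (RelEmbedding.natGT (fun n => rk (c n)) fun n => rk_lt _ (h1 n) _ (h1 _) (h2 n)).not_wellFounded
      Ordinal.lt_wf
  · apply csInf_mem (s := {a | BB = ⋃ i < a, layer BB i})
    by_contra hh
    have := rank_eq Subset.rfl basis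
    rw [rank, not_nonempty_iff_eq_empty.1 hh] at this
    rw [Ordinal.sInf_empty] at this
    exact (zero_le.trans_lt (lt_add_one ω)).ne this
  · rw [rank_eq Subset.rfl basis, e]; exact (lt_add_one _).ne
  · rw [rank_eq Subset.rfl basis, rank_eq h1 h2.1, e]; exact lt_add_one _

end Pool.Agent.Results.MP_5675d3_gt.Fort
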